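import Pool.Agent.W645.WV.Stm

/-! WV-DEC (helper645): decay of `MK`. -/

set_option autoImplicit false

open MeasureTheory Set Complex
open scoped ENNReal FourierTransform

namespace Pool.Agent.W688.WV

open Pool.Agent.W645.WV

/-- the exponential on the line -/
noncomputable def ex (y : ℝ) : ℂ := cexp (y : ℂ)

lemma ex_smooth : ContDiff ℝ (⊤ : ℕ∞) ex := by
  unfold ex
  exact Complex.contDiff_exp.comp Complex.ofRealCLM.contDiff

lemma ex_deriv : deriv ex = ex := by
  funext y
  have h : HasDerivAt ex (cexp (y : ℂ)) y := by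
    have := (Complex.hasDerivAt_exp (y : ℂ)).comp_ofReal
    exact this
  exact h.deriv

lemma ex_iter (k : ℕ) : iteratedDeriv k ex = ex := by
  induction k with
  | zero => exact iteratedDeriv_zero
  | succ k ih => rw [iteratedDeriv_succ, ih, ex_deriv]

lemma ex_norm (y : ℝ) : ‖ex y‖ = Real.exp y := by
  unfold ex
  rw [Complex.norm_exp, Complex.ofReal_re]

section
variable {Θ : ℝ → ℂ} {N : ℝ} {K : ℕ}

/-- `e^y Θ(y)` -/
noncomputable def FF (Θ : ℝ → ℂ) (y : ℝ) : ℂ := ex y * Θ y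

lemma FF_smooth (h : Cls (-1) 16 N K Θ) : ContDiff ℝ (⊤ : ℕ∞) (FF Θ) := ex_smooth.mul h.1

lemma FF_tsupport (h : Cls (-1) 16 N K Θ) : tsupport (FF Θ) ⊆ Icc (-1) 16 := by
  refine closure_minimal ?_ isClosed_Icc
  intro y hy
  refine h.2.1 y fun h0 => hy ?_
  unfold FF
  rw [h0, mul_zero]

lemma FF_iter_zero (h : Cls (-1) 16 N K Θ) (k : ℕ) {y : ℝ} (hy : y ∉ Icc (-1 : ℝ) 16) :
    iteratedDeriv k (FF Θ) y = 0 := by
  have h1 : iteratedFDeriv ℝ k (FF Θ) y = 0 := by
    by_contra hc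
    exact hy (FF_tsupport h (support_iteratedFDeriv_subset k hc))
  rw [← norm_eq_zero, ← norm_iteratedFDeriv_eq_norm_iteratedDeriv, h1, norm_zero]

lemma FF_iter_le (hN : 0 < N) (h : Cls (-1) 16 N K Θ) {k : ℕ} (hk : k ≤ K) (y : ℝ) :
    ‖iteratedDeriv k (FF Θ) y‖ ≤
      (Icc (-1 : ℝ) 16).indicator (fun _ => 2 ^ k * Real.exp 16 * N) y := by
  by_cases hy : y ∈ Icc (-1 : ℝ) 16
  · rw [indicator_of_mem hy, ← norm_iteratedFDeriv_eq_norm_iteratedDeriv]
    have h1 := norm_iteratedFDeriv_mul_le (𝕜 := ℝ) (f := ex) (g := Θ) ex_smooth h.1 y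
      (n := k) (by exact_mod_cast le_top)
    refine h1.trans ?_
    calc ∑ i ∈ Finset.range (k + 1), (k.choose i : ℝ) * ‖iteratedFDeriv ℝ i ex y‖ *
          ‖iteratedFDeriv ℝ (k - i) Θ y‖
        ≤ ∑ i ∈ Finset.range (k + 1), (k.choose i : ℝ) * (Real.exp 16 * N) := by
          refine Finset.sum_le_sum fun i _ => ?_
          rw [mul_assoc]
          refine mul_le_mul_of_nonneg_left ?_ (Nat.cast_nonneg _)
          rw [norm_iteratedFDeriv_eq_norm_iteratedDeriv, norm_iteratedFDeriv_eq_norm_iteratedDeriv,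
            ex_iter, ex_norm]
          exact mul_le_mul (Real.exp_le_exp.2 hy.2) (h.2.2 _ ((Nat.sub_le _ _).trans hk) y)
            (norm_nonneg _) (Real.exp_pos _).le
      _ = 2 ^ k * Real.exp 16 * N := by
          rw [← Finset.sum_mul]
          have h2 : ∑ i ∈ Finset.range (k + 1), (k.choose i : ℝ) = 2 ^ k := by
            exact_mod_cast Nat.sum_range_choose k
          rw [h2, mul_assoc]
  · rw [FF_iter_zero h k hy, norm_zero, indicator_of_notMem hy]

lemma FF_iter_int (h : Cls (-1) 16 N K Θ) (k : ℕ) : Integrable (iteratedDeriv k (FF Θ)) := by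
  refine Continuous.integrable_of_hasCompactSupport
    ((FF_smooth h).continuous_iteratedDeriv k (by exact_mod_cast le_top)) ?_
  refine HasCompactSupport.of_support_subset_isCompact (isCompact_Icc (a := (-1 : ℝ)) (b := 16)) ?_
  intro y hy
  by_contra hc
  exact hy (FF_iter_zero h k hc)

lemma FF_int (h : Cls (-1) 16 N K Θ) : Integrable (FF Θ) := by
  have := FF_iter_int h 0
  rwa [iteratedDeriv_zero] at this

lemma MK_eq (Θ : ℝ → ℂ) (s : ℝ) : MK Θ s = 𝓕 (FF Θ) (-s) := by
  rw [Real.fourier_real_eq_integral_exp_smul]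
  unfold MK FF ex
  refine integral_congr_ae (Filter.Eventually.of_forall fun y => ?_)
  simp only [smul_eq_mul]
  rw [mul_comm]
  congr 2
  push_cast
  ring

lemma MK_cont (h : Cls (-1) 16 N K Θ) : Continuous (MK Θ) := by
  have h1 : MK Θ = fun s => ∫ y : ℝ, FF Θ y *
      cexp (2 * (Real.pi : ℂ) * I * ((s * y : ℝ) : ℂ)) := rfl
  rw [h1]
  refine continuous_of_dominated (bound := fun y => ‖FF Θ y‖) ?_ ?_ (FF_int h).norm ?_
  · intro s
    refine AEStronglyMeasurable.mul (FF_int h).1 ?_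
    exact Continuous.aestronglyMeasurable (by fun_prop)
  · intro s
    refine Filter.Eventually.of_forall fun y => ?_
    rw [norm_mul, Complex.norm_exp]
    have h2 : (2 * (Real.pi : ℂ) * I * ((s * y : ℝ) : ℂ)).re = 0 := by
      simp
    rw [h2, Real.exp_zero, mul_one]
  · refine Filter.Eventually.of_forall fun y => ?_
    fun_prop

lemma MK_decay (hN : 0 < N) (h : Cls (-1) 16 N K Θ) {k : ℕ} (hk : k ≤ K) (s : ℝ) :
    |s| ^ k * ‖MK Θ s‖ ≤ 17 * (2 ^ k * Real.exp 16 * N) := by
  have h1 := congrFun (Real.fourier_iteratedDeriv (f := FF Θ) (N := (⊤ : ℕ∞)) (n := k)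
    (by exact_mod_cast FF_smooth h) (fun n _ => FF_iter_int h n) le_top) (-s)
  have h2 : ‖𝓕 (iteratedDeriv k (FF Θ)) (-s)‖ ≤ 17 * (2 ^ k * Real.exp 16 * N) := by
    rw [Real.fourier_real_eq_integral_exp_smul]
    refine (norm_integral_le_integral_norm _).trans ?_
    calc ∫ y : ℝ, ‖cexp (↑(-2 * Real.pi * y * -s) * I) • iteratedDeriv k (FF Θ) y‖
        ≤ ∫ y : ℝ, (Icc (-1 : ℝ) 16).indicator (fun _ => 2 ^ k * Real.exp 16 * N) y := by
          refine integral_mono_of_nonneg (Filter.Eventually.of_forall fun y => norm_nonneg _) ?_ ?_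
          · exact (integrable_indicator_iff measurableSet_Icc).2
              (integrableOn_const (by simp) enorm_ne_top)
          · refine Filter.Eventually.of_forall fun y => ?_
            simp only
            rw [norm_smul, Complex.norm_exp_ofReal_mul_I, one_mul]
            exact FF_iter_le hN h hk y
      _ = 17 * (2 ^ k * Real.exp 16 * N) := by
          rw [integral_indicator measurableSet_Icc, setIntegral_const, smul_eq_mul]
          congr 1
          rw [Measure.real, Real.volume_Icc, ENNReal.toReal_ofReal (by norm_num)]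
          norm_num
  rw [h1, norm_smul, ← MK_eq, norm_pow] at h2
  refine le_trans (mul_le_mul_of_nonneg_right ?_ (norm_nonneg _)) h2
  refine pow_le_pow_left₀ (abs_nonneg s) ?_ k
  have h3 : ‖(2 * (Real.pi : ℂ) * I * ((-s : ℝ) : ℂ))‖ = 2 * Real.pi * |s| := by
    rw [norm_mul, norm_mul, norm_mul, Complex.norm_I, Complex.norm_real, Complex.norm_real,
      Real.norm_eq_abs, Real.norm_eq_abs, abs_neg, abs_of_pos Real.pi_pos]
    simp
  rw [h3]
  have := Real.pi_gt_three
  nlinarith [abs_nonneg s]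

end

theorem dec : S_DEC := by
  intro K
  refine ⟨2 ^ K * (17 * Real.exp 16) * (1 + 2 ^ K), by positivity, fun N hN Θ h => ⟨MK_cont h, ?_⟩⟩
  intro s
  have h0 := MK_decay hN h (Nat.zero_le K) s
  have hK := MK_decay hN h le_rfl s
  rw [pow_zero, pow_zero, one_mul, one_mul] at h0
  have hs : 0 ≤ |s| := abs_nonneg s
  have hn : 0 ≤ ‖MK Θ s‖ := norm_nonneg _
  have hpos : 0 < (1 + |s|) ^ K := by positivity
  rw [Real.rpow_neg (by positivity), Real.rpow_natCast, ← div_eq_mul_inv, le_div_iff₀ hpos]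
  have h1 : (1 + |s|) ^ K ≤ 2 ^ K * (1 + |s| ^ K) := by
    rcases le_total |s| 1 with h2 | h2
    · calc (1 + |s|) ^ K ≤ 2 ^ K := pow_le_pow_left₀ (by positivity) (by linarith) K
        _ ≤ 2 ^ K * (1 + |s| ^ K) := by
            have : 0 ≤ |s| ^ K := by positivity
            have h3 : (0 : ℝ) < 2 ^ K := by positivity
            nlinarith
    · calc (1 + |s|) ^ K ≤ (2 * |s|) ^ K := pow_le_pow_left₀ (by positivity) (by linarith) K
        _ = 2 ^ K * |s| ^ K := mul_pow _ _ _
        _ ≤ 2 ^ K * (1 + |s| ^ K) := by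
            refine mul_le_mul_of_nonneg_left ?_ (by positivity)
            linarith
  calc ‖MK Θ s‖ * (1 + |s|) ^ K ≤ ‖MK Θ s‖ * (2 ^ K * (1 + |s| ^ K)) :=
        mul_le_mul_of_nonneg_left h1 hn
    _ = 2 ^ K * (‖MK Θ s‖ + |s| ^ K * ‖MK Θ s‖) := by ring
    _ ≤ 2 ^ K * (17 * (Real.exp 16 * N) + 17 * (2 ^ K * Real.exp 16 * N)) :=
        mul_le_mul_of_nonneg_left (add_le_add h0 hK) (by positivity)
    _ = 2 ^ K * (17 * Real.exp 16) * (1 + 2 ^ K) * N := by ring

end Pool.Agent.W688.WV
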